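import Mathlib

/-!
# Derivations with prescribed values on an algebraically independent family (characteristic zero)
-/

open MvPolynomial

noncomputable section

namespace Rig32f

open scoped IntermediateField.algebraAdjoinAdjoin in
/-- A derivation of `L` over `K` with prescribed values on a transcendence basis. -/
theorem exists_derivation_of_basis {K L ι : Type*} [Field K] [Field L] [Algebra K L] [CharZero K]
    (v : ι → L) (hv : IsTranscendenceBasis K v) (f : ι → L) :
    ∃ D : Derivation K L L, ∀ i, D (v i) = f i := by
  classical
  let A := Algebra.adjoin K (Set.range v)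
  let F := IntermediateField.adjoin K (Set.range v)
  have halg : Algebra.IsAlgebraic F L := hv.isAlgebraic_field
  have : CharZero F := charZero_of_injective_algebraMap (algebraMap K F).injective
  have hsep : Algebra.IsSeparable F L := inferInstance
  have h1 : Algebra.FormallyEtale F L := Algebra.FormallyEtale.of_isSeparable F L
  have h2 : Algebra.FormallyEtale A F := Algebra.FormallyEtale.of_isLocalization (nonZeroDivisors _)
  have h3 : Algebra.FormallyEtale A L := Algebra.FormallyEtale.comp A F L
  let S := MvPolynomial ι K
  let e : S ≃ₐ[K] A := hv.1.aevalEquiv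
  let _ : Algebra S A := (e : S →+* A).toAlgebra
  have h4 : Algebra.FormallyEtale S A := by
    have hb : Function.Bijective (Algebra.ofId S A) := e.bijective
    exact Algebra.FormallyEtale.of_equiv (AlgEquiv.ofBijective (Algebra.ofId S A) hb)
  let _ : Algebra S L := ((algebraMap A L).comp (algebraMap S A)).toAlgebra
  have : IsScalarTower S A L := IsScalarTower.of_algebraMap_eq' rfl
  have : IsScalarTower K S A := IsScalarTower.of_algebraMap_eq' (by
    ext x
    exact (congrArg Subtype.val (e.commutes x)).symm)
  have : IsScalarTower K S L := IsScalarTower.of_algebraMap_eq' (by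
    rw [IsScalarTower.algebraMap_eq S A L, RingHom.comp_assoc, ← IsScalarTower.algebraMap_eq K S A,
      ← IsScalarTower.algebraMap_eq K A L])
  have h5 : Algebra.FormallyEtale S L := Algebra.FormallyEtale.comp S A L
  let DS : Derivation K S L := mkDerivation K f
  let ℓ : (Ω[L⁄K]) →ₗ[L] L :=
    (LinearMap.liftBaseChange L DS.liftKaehlerDifferential) ∘ₗ
      (KaehlerDifferential.tensorKaehlerEquivOfFormallyEtale K S L).symm.toLinearMap
  refine ⟨ℓ.compDer (KaehlerDifferential.D K L), fun i => ?_⟩
  have hvi : v i = algebraMap S L (X i) := by
    have := hv.1.algebraMap_aevalEquiv (X i)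
    rw [aeval_X] at this
    exact this.symm
  rw [hvi]
  change (LinearMap.liftBaseChange L DS.liftKaehlerDifferential)
    ((KaehlerDifferential.tensorKaehlerEquivOfFormallyEtale K S L).symm
      (KaehlerDifferential.D K L (algebraMap S L (X i)))) = f i
  rw [KaehlerDifferential.tensorKaehlerEquivOfFormallyEtale_symm_D_algebraMap]
  simp only [LinearMap.liftBaseChange_tmul, Derivation.liftKaehlerDifferential_comp_D, one_smul, DS]
  exact mkDerivation_X K f i

/-- A derivation of `L` over `K` with prescribed values on an algebraically independent family. -/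
theorem exists_derivation {K L ι : Type*} [Field K] [Field L] [Algebra K L] [CharZero K]
    (v : ι → L) (hv : AlgebraicIndependent K v) (f : ι → L) :
    ∃ D : Derivation K L L, ∀ i, D (v i) = f i := by
  classical
  obtain ⟨t, hst, ht⟩ := exists_isTranscendenceBasis_superset hv.to_subtype_range
  let g : t → L := fun x => if h : ∃ i, v i = (x : L) then f h.choose else 0
  obtain ⟨D, hD⟩ := exists_derivation_of_basis (fun x : t => (x : L)) ht g
  refine ⟨D, fun i => ?_⟩
  have h0 := hD ⟨v i, hst ⟨i, rfl⟩⟩
  simp only at h0
  rw [h0]
  have hex : ∃ j, v j = v i := ⟨i, rfl⟩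
  simp only [g]
  rw [dif_pos hex]
  congr 1
  exact hv.injective hex.choose_spec

end Rig32f
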