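import Mathlib
import Pool.Agent.Rig32f.Derivation

/-!
# Equilibrium stresses transfer between equivalent realizations (general polynomial form)

This is Connelly's observation, in the general form: if `p` has algebraically independent
coordinates and `F i` are polynomials with `F i (p) = F i (q)`, then each linear dependence of the
gradients of the `F i` at `p` is a linear dependence at `q`.
-/

open MvPolynomial

noncomputable section

namespace Rig32f

/-- Chain rule for derivations and polynomials. -/
theorem derivation_aeval {K B M ι : Type*} [CommRing K] [CommRing B] [Algebra K B]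
    [AddCommGroup M] [Module K M] [Module B M] [IsScalarTower K B M]
    [Fintype ι] (D : Derivation K B M) (b : ι → B) (P : MvPolynomial ι K) :
    D (aeval b P) = ∑ j, aeval b (pderiv j P) • D (b j) := by
  classical
  induction P using MvPolynomial.induction_on with
  | C r =>
    simp
  | add P Q hP hQ =>
    simp only [map_add, hP, hQ, add_smul, Finset.sum_add_distrib]
  | mul_X P n hP =>
    simp only [map_mul, aeval_X, Derivation.leibniz, hP, pderiv_X, smul_eq_mul, map_add, add_smul,
      Finset.sum_add_distrib, mul_smul]
    congr 1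
    · rw [Finset.sum_eq_single n]
      · simp
      · intro j _ hj
        simp [hj.symm]
      · simp
    · rw [Finset.smul_sum]

/-- In characteristic zero, a polynomial with vanishing derivative in the direction `i` does not
involve the variable `i`. -/
theorem notMem_vars_of_pderiv_eq_zero {K ι : Type*} [Field K] [CharZero K]
    (P : MvPolynomial ι K) (i : ι) (h : pderiv i P = 0) : i ∉ P.vars := by
  classical
  rw [mem_vars_iff_mem_support]
  rintro ⟨m, hm, hi⟩
  have hmi : m i ≠ 0 := by simpa using hi
  have h1 : coeff (m - Finsupp.single i 1) (pderiv i P) = 0 := by rw [h]; simp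
  rw [coeff_pderiv] at h1
  have h2 : m - Finsupp.single i 1 + Finsupp.single i 1 = m := by
    ext j
    by_cases hj : j = i
    · subst hj
      simp only [Finsupp.coe_add, Finsupp.coe_tsub, Pi.add_apply, Pi.sub_apply,
        Finsupp.single_eq_same]
      omega
    · simp [Ne.symm hj]
  rw [h2] at h1
  rw [mem_support_iff] at hm
  rcases mul_eq_zero.mp h1 with h3 | h3
  · exact hm h3
  · have h4 : (((m - Finsupp.single i 1 : ι →₀ ℕ) i + 1 : ℕ) : K) = 0 := by
      push_cast
      exact h3
    exact Nat.succ_ne_zero _ (Nat.cast_eq_zero.mp h4)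

theorem totalDegree_pderiv_lt {K ι : Type*} [Field K]
    (P : MvPolynomial ι K) (i : ι) (h : pderiv i P ≠ 0) :
    (pderiv i P).totalDegree < P.totalDegree := by
  classical
  have key : ∀ m ∈ (pderiv i P).support, (m.sum fun _ e => e) < P.totalDegree := by
    intro m hm
    rw [mem_support_iff, coeff_pderiv] at hm
    have hm' : coeff (m + Finsupp.single i 1) P ≠ 0 := left_ne_zero_of_mul hm
    have h1 := le_totalDegree (mem_support_iff.mpr hm')
    rw [Finsupp.sum_add_index'] at h1
    · simp only [Finsupp.sum_single_index] at h1
      omega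
    · intro; rfl
    · intro _ _ _; rfl
  obtain ⟨m, hm⟩ := MvPolynomial.support_nonempty.mpr h
  have hpos : 0 < P.totalDegree := lt_of_le_of_lt (Nat.zero_le _) (key m hm)
  rw [totalDegree, Finset.sup_lt_iff hpos]
  exact key

/-- A minimal algebraic relation. -/
theorem exists_relation {K L ι : Type*} [Field K] [CharZero K] [Field L] [Algebra K L]
    (a : ι → L) (s : Set ι) (i : ι) (hs : AlgebraicIndepOn K a s)
    (hi : ¬ AlgebraicIndepOn K a (insert i s)) :
    ∃ P : MvPolynomial ι K, P ∈ supported K (insert i s) ∧ aeval a P = 0 ∧
      aeval a (pderiv i P) ≠ 0 := by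
  classical
  let T : Set ι := insert i s
  let b : T → L := fun j => a j
  have hex : ∃ n : ℕ, ∃ Q : MvPolynomial T K, Q ≠ 0 ∧ aeval b Q = 0 ∧ Q.totalDegree = n := by
    have : ¬ AlgebraicIndependent K b := hi
    rw [algebraicIndependent_iff] at this
    push Not at this
    obtain ⟨Q, hQ, hQ0⟩ := this
    exact ⟨_, Q, hQ0, hQ, rfl⟩
  obtain ⟨Q, hQ0, hQ, hQn⟩ := Nat.find_spec hex
  have hmin : ∀ R : MvPolynomial T K, R ≠ 0 → aeval b R = 0 → Q.totalDegree ≤ R.totalDegree := by
    intro R hR0 hR
    rw [hQn]
    exact Nat.find_min' hex ⟨R, hR0, hR, rfl⟩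
  let i' : T := ⟨i, Set.mem_insert _ _⟩
  have hcomp : ∀ R : MvPolynomial T K, aeval a (rename Subtype.val R) = aeval b R := by
    intro R
    rw [aeval_rename]
    rfl
  have hd : pderiv i' Q ≠ 0 := by
    intro h0
    have hv := notMem_vars_of_pderiv_eq_zero Q i' h0
    have hsup : rename Subtype.val Q ∈ supported K s := by
      rw [mem_supported]
      intro j hj
      have := vars_rename Subtype.val Q hj
      rw [Finset.mem_image] at this
      obtain ⟨k, hk, rfl⟩ := this
      rcases k.2 with hk2 | hk2
      · exfalso
        apply hv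
        have : k = i' := Subtype.ext hk2
        rwa [this] at hk
      · exact hk2
    have h1 := (algebraicIndependent_comp_subtype (R := K) (x := a) (s := s)).mp hs _ hsup
      (by rw [hcomp, hQ])
    have h2 : Q = 0 := rename_injective _ Subtype.val_injective (by rw [h1, map_zero])
    exact hQ0 h2
  refine ⟨rename Subtype.val Q, ?_, ?_, ?_⟩
  · rw [mem_supported]
    intro j hj
    have := vars_rename Subtype.val Q hj
    rw [Finset.mem_image] at this
    obtain ⟨k, hk, rfl⟩ := this
    exact k.2
  · rw [hcomp, hQ]
  · have h1 : pderiv i (rename Subtype.val Q) = rename Subtype.val (pderiv i' Q) :=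
      pderiv_rename Subtype.val_injective i' Q
    rw [h1, hcomp]
    intro h0
    have h2 := hmin _ hd h0
    have h3 := totalDegree_pderiv_lt Q i' hd
    omega

/-- **Transfer of dependencies.** -/
theorem stress_transfer {K L ι σ : Type*} [Field K] [CharZero K] [Field L] [Algebra K L]
    [Fintype ι] [Fintype σ]
    (F : ι → MvPolynomial σ K) (p q : σ → L) (hp : AlgebraicIndependent K p)
    (hpq : ∀ i, aeval p (F i) = aeval q (F i))
    (ω : ι → L) (hω : ∀ k, ∑ i, ω i * aeval p (pderiv k (F i)) = 0) :
    ∀ k, ∑ i, ω i * aeval q (pderiv k (F i)) = 0 := by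
  classical
  set a : ι → L := fun i => aeval p (F i) with ha
  have hempty : AlgebraicIndepOn K a (∅ : Set ι) := by
    show AlgebraicIndependent K _
    rw [algebraicIndependent_empty_type_iff]
    exact (algebraMap K L).injective
  obtain ⟨s, -, hs⟩ := Finite.exists_le_maximal (p := fun s : Set ι => AlgebraicIndepOn K a s)
    hempty
  have hrel : ∀ i, i ∉ s → ∃ P : MvPolynomial ι K, P ∈ supported K (insert i s) ∧
      aeval a P = 0 ∧ aeval a (pderiv i P) ≠ 0 := by
    intro i hi
    refine exists_relation a s i hs.prop fun h => hi ?_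
    exact hs.le_of_ge h (Set.subset_insert _ _) (Set.mem_insert _ _)
  choose! P hPsup hP0 hPd using hrel
  -- chain rule
  have haq : (fun i => aeval q (F i)) = a := by
    funext i; exact (hpq i).symm
  have hchain : ∀ i, i ∉ s → ∀ x : σ → L, (fun i => aeval x (F i)) = a → ∀ k,
      ∑ j, aeval a (pderiv j (P i)) * aeval x (pderiv k (F j)) = 0 := by
    intro i hi x hx k
    have hH : aeval F (P i) = 0 := by
      apply hp.eq_zero_of_aeval_eq_zero
      have : aeval p (aeval F (P i)) = aeval a (P i) := by
        rw [← AlgHom.comp_apply]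
        congr 1
        ext j
        simp [ha]
      rw [this, hP0 i hi]
    have h1 := derivation_aeval (pderiv k : Derivation K (MvPolynomial σ K) _) F (P i)
    rw [hH, map_zero] at h1
    have h2 := congrArg (aeval x) h1
    rw [map_zero, map_sum] at h2
    rw [h2.symm.symm]
    simp only [smul_eq_mul, map_mul]
    refine Finset.sum_congr rfl fun j _ => ?_
    congr 1
    have : aeval x (aeval F (pderiv j (P i))) = aeval (fun i => aeval x (F i)) (pderiv j (P i)) := by
      rw [← AlgHom.comp_apply]
      congr 1
      ext j
      simp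
    rw [this, hx]
  -- support of the coefficients
  have hsupp : ∀ i, i ∉ s → ∀ j, j ∉ s → j ≠ i → aeval a (pderiv j (P i)) = 0 := by
    intro i hi j hj hji
    have : j ∉ (P i).vars := by
      intro hjv
      rcases (mem_supported.mp (hPsup i hi)) hjv with h | h
      · exact hji h
      · exact hj h
    rw [pderiv_eq_zero_of_notMem_vars this, map_zero]
  -- correct the stress
  let ω' : ι → L := fun j => ω j - ∑ i, if i ∈ s then 0 else
    (ω i / aeval a (pderiv i (P i))) * aeval a (pderiv j (P i))
  have hω'x : ∀ x : σ → L, (fun i => aeval x (F i)) = a → ∀ k,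
      ∑ j, ω' j * aeval x (pderiv k (F j)) = ∑ j, ω j * aeval x (pderiv k (F j)) := by
    intro x hx k
    simp only [ω', sub_mul, Finset.sum_sub_distrib, Finset.sum_mul]
    rw [Finset.sum_comm]
    rw [sub_eq_self]
    refine Finset.sum_eq_zero fun i _ => ?_
    by_cases hi : i ∈ s
    · simp [hi]
    · simp only [hi, if_false, mul_assoc]
      rw [← Finset.mul_sum, hchain i hi x hx k, mul_zero]
  have hω's : ∀ j, j ∉ s → ω' j = 0 := by
    intro j hj
    simp only [ω']
    rw [Finset.sum_eq_single j]
    · rw [if_neg hj, div_mul_cancel₀ _ (hPd j hj), sub_self]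
    · intro i _ hij
      by_cases hi : i ∈ s
      · simp [hi]
      · rw [if_neg hi, hsupp i hi j hj hij.symm, mul_zero]
    · simp
  -- derivations
  have hω'0 : ∀ j, ω' j = 0 := by
    intro j
    by_cases hj : j ∈ s
    · obtain ⟨D, hD⟩ := exists_derivation (K := K) (fun i : s => a i) hs.prop
        (fun i => if (i : ι) = j then 1 else 0)
      have h1 : ∀ i, D (a i) = ∑ k, aeval p (pderiv k (F i)) * D (p k) := by
        intro i
        have := derivation_aeval D p (F i)
        simpa [ha, smul_eq_mul] using this
      have h2 : ∑ i, ω' i * D (a i) = 0 := by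
        simp only [h1, Finset.mul_sum]
        rw [Finset.sum_comm]
        refine Finset.sum_eq_zero fun k _ => ?_
        have h3 := hω'x p rfl k
        rw [hω k] at h3
        simp only [← mul_assoc, ← Finset.sum_mul]
        rw [h3, zero_mul]
      rw [Finset.sum_eq_single j] at h2
      · have := hD ⟨j, hj⟩
        simp only [if_true] at this
        rwa [this, mul_one] at h2
      · intro i _ hij
        by_cases hi : i ∈ s
        · have := hD ⟨i, hi⟩
          simp only [hij, if_false] at this
          rw [this, mul_zero]
        · rw [hω's i hi, zero_mul]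
      · simp
    · exact hω's j hj
  intro k
  rw [← hω'x q haq k]
  simp [hω'0]

end Rig32f
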