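import Mathlib

/-!
# Generic rigidity: definitions

All graphs are `SimpleGraph V` on a finite vertex type `V`.  A realization of `G` in `ℝ^d` is a map
`p : V → EuclideanSpace ℝ (Fin d)`.
-/

noncomputable section

namespace Rig32f

variable {V : Type*} {d : ℕ}

/-- A realization is generic if the family of all coordinates of all points `p x` is algebraically
independent over `ℚ`. -/
def IsGeneric (p : V → EuclideanSpace ℝ (Fin d)) : Prop :=
  AlgebraicIndependent ℚ (fun x : V × Fin d => p x.1 x.2)

/-- Realizations `(G, p)` and `(G, q)` are equivalent if corresponding edges have equal length. -/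
def Equivalent (G : SimpleGraph V) (p q : V → EuclideanSpace ℝ (Fin d)) : Prop :=
  ∀ x y, G.Adj x y → dist (p x) (p y) = dist (q x) (q y)

open Classical in
/-- The row of the rigidity matrix belonging to the pair `xy`: it has `p x - p y` in the `d` columns
of `x`, `p y - p x` in the `d` columns of `y`, and zeros elsewhere.  Columns are indexed by
`V × Fin d`. -/
def rigidityRow (p : V → EuclideanSpace ℝ (Fin d)) : Sym2 V → V × Fin d → ℝ :=
  Sym2.lift ⟨fun x y wk =>
    (if wk.1 = x then p x wk.2 - p y wk.2 else 0) +
      (if wk.1 = y then p y wk.2 - p x wk.2 else 0), by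
    intro x y
    funext wk
    exact add_comm _ _⟩

/-- The rigidity matrix of `(G, p)`: rows indexed by the edges of `G`. -/
def rigidityMatrix (G : SimpleGraph V) (p : V → EuclideanSpace ℝ (Fin d)) :
    Matrix G.edgeSet (V × Fin d) ℝ :=
  Matrix.of fun e wk => rigidityRow p e.1 wk

/-- `{u, v}` is linked in `G` in `ℝ^d`: adding the edge `uv` does not increase the rank of the
rigidity matrix of a generic realization (`r_d (G + uv) = r_d G`). -/
def IsLinked [Fintype V] (d : ℕ) (G : SimpleGraph V) (u v : V) : Prop :=
  ∃ p : V → EuclideanSpace ℝ (Fin d), IsGeneric p ∧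
    (rigidityMatrix (G ⊔ SimpleGraph.edge u v) p).rank = (rigidityMatrix G p).rank

/-- `{u, v}` is globally linked in `G` in `ℝ^d`: for every generic realization `(G, p)` and every
equivalent realization `(G, q)`, `|p u - p v| = |q u - q v|`. -/
def IsGloballyLinked (d : ℕ) (G : SimpleGraph V) (u v : V) : Prop :=
  ∀ p q : V → EuclideanSpace ℝ (Fin d), IsGeneric p → Equivalent G p q →
    dist (p u) (p v) = dist (q u) (q v)

end Rig32f
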