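import Mathlib
import Pool.Agent.Rig32f.Defs

/-!
# Existence of generic points and generic lifts
-/

open MvPolynomial Cardinal

noncomputable section

namespace Rig32f

/-- Over a countable subfield of `ℝ` there are algebraically independent families of any finite
size. -/
theorem exists_algebraicIndependent {V : Type*} [Finite V] (K : Type) [Field K] [Countable K]
    [Algebra K ℝ] : ∃ z : V → ℝ, AlgebraicIndependent K z := by
  obtain ⟨ι, x, hx⟩ := exists_isTranscendenceBasis' K ℝ
  have hne : Nonempty ι := by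
    by_contra h
    rw [not_nonempty_iff] at h
    have halg : Algebra.IsAlgebraic K ℝ := hx.isEmpty_iff_isAlgebraic.mp h
    have h1 := Algebra.IsAlgebraic.cardinalMk_le_max K ℝ
    have h2 : #K ≤ ℵ₀ := Cardinal.mk_le_aleph0
    have h3 : #ℝ ≤ ℵ₀ := h1.trans (max_le h2 le_rfl)
    rw [Cardinal.mk_real] at h3
    exact absurd h3 (not_le.mpr Cardinal.aleph0_lt_continuum)
  have hinf : Infinite ι := by
    by_contra h
    rw [not_infinite_iff_finite] at h
    have h1 := hx.lift_cardinalMk_eq_max_lift
    simp only [Cardinal.lift_id, Cardinal.mk_real] at h1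
    have h2 : #K ≤ ℵ₀ := Cardinal.mk_le_aleph0
    have h4 : #ι ≤ ℵ₀ := Cardinal.mk_le_aleph0
    have h5 : Cardinal.continuum.{0} ≤ ℵ₀ := by
      rw [h1]
      simp [h2, h4]
    exact absurd h5 (not_le.mpr Cardinal.aleph0_lt_continuum)
  obtain ⟨n, ⟨e⟩⟩ := Finite.exists_equiv_fin V
  let g : V → ι := fun w => Infinite.natEmbedding ι (e w)
  have hg : Function.Injective g := by
    intro a b hab
    exact e.injective (Fin.ext ((Infinite.natEmbedding ι).injective hab))
  exact ⟨x ∘ g, hx.1.comp g hg⟩

/-- Generic realizations exist. -/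
theorem exists_isGeneric {V : Type*} [Finite V] (d : ℕ) :
    ∃ p : V → EuclideanSpace ℝ (Fin d), IsGeneric p := by
  obtain ⟨z, hz⟩ := exists_algebraicIndependent (V := V × Fin d) ℚ
  exact ⟨fun w => WithLp.toLp 2 (fun k => z (w, k)), hz⟩

/-- The lift of a realization in `ℝ^d` by a new coordinate (placed first). -/
def lift {V : Type*} {d : ℕ} (p : V → EuclideanSpace ℝ (Fin d)) (y : V → ℝ) :
    V → EuclideanSpace ℝ (Fin (d + 1)) :=
  fun w => WithLp.toLp 2 (Fin.cons (y w) (fun k => p w k))

@[simp] theorem lift_zero {V : Type*} {d : ℕ} (p : V → EuclideanSpace ℝ (Fin d)) (y : V → ℝ)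
    (w : V) : lift p y w 0 = y w := rfl

@[simp] theorem lift_succ {V : Type*} {d : ℕ} (p : V → EuclideanSpace ℝ (Fin d)) (y : V → ℝ)
    (w : V) (k : Fin d) : lift p y w k.succ = p w k := rfl

/-- Given a generic `p` and an arbitrary `q`, there is a `z` such that lifting `p` by
`q k + t z` (`t ≠ 0` rational) always gives a generic realization. -/
theorem exists_generic_lift {V : Type*} [Finite V] {d : ℕ}
    (p : V → EuclideanSpace ℝ (Fin d)) (hp : IsGeneric p) (y : V → ℝ) :
    ∃ z : V → ℝ, ∀ t : ℚ, t ≠ 0 → IsGeneric (lift p (fun w => y w + t * z w)) := by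
  classical
  let S : Set ℝ := Set.range (fun x : V × Fin d => p x.1 x.2) ∪ Set.range y
  let K := IntermediateField.adjoin ℚ S
  have hS : S.Countable := (Set.countable_range _).union (Set.countable_range _)
  have hK : Countable K := by
    rw [← Cardinal.mk_le_aleph0_iff]
    have h1 := IntermediateField.cardinalMk_adjoin_le ℚ S
    refine h1.trans ?_
    simp only [Cardinal.mk_eq_aleph0 ℚ, sup_le_iff, le_refl, and_true, true_and]
    exact Cardinal.mk_le_aleph0_iff.mpr hS.to_subtype
  obtain ⟨z, hz⟩ := exists_algebraicIndependent (V := V) K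
  refine ⟨z, fun t ht => ?_⟩
  have hyK : ∀ w, y w ∈ K := fun w => IntermediateField.subset_adjoin _ _ (Or.inr ⟨w, rfl⟩)
  let f : V → Polynomial K := fun w => Polynomial.C (⟨y w, hyK w⟩ : K) +
    Polynomial.C (algebraMap ℚ K t) * Polynomial.X
  have hf : ∀ w, Transcendental K (f w) := by
    intro w
    have ht' : algebraMap ℚ K t ≠ 0 := by
      simpa using ht
    have hdeg : (f w).natDegree = 1 := by
      simp only [f]
      rw [add_comm]
      exact Polynomial.natDegree_linear ht'
    apply Polynomial.transcendental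
    · rw [hdeg]; norm_num
    · simp only [f]
      rw [add_comm, Polynomial.leadingCoeff_linear ht']
      exact mem_nonZeroDivisors_of_ne_zero ht'
  have hy1 : AlgebraicIndependent K (fun w => y w + t * z w) := by
    have := hz.polynomial_aeval_of_transcendental hf
    convert! this using 2 with w
    simp [f]
  have hsum := hp.sumElim_of_tower (S := K) (y := fun w => y w + t * z w) (by
    rintro _ ⟨x, rfl⟩
    exact ⟨⟨p x.1 x.2, IntermediateField.subset_adjoin _ _ (Or.inl ⟨x, rfl⟩)⟩, rfl⟩) hy1
  let g : V × Fin (d + 1) → V ⊕ V × Fin d := fun x =>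
    Fin.cases (motive := fun _ => V ⊕ V × Fin d) (Sum.inl x.1) (fun k => Sum.inr (x.1, k)) x.2
  have hg : Function.Injective g := by
    rintro ⟨w, k⟩ ⟨w', k'⟩ h
    cases k using Fin.cases <;> cases k' using Fin.cases <;> simp_all [g]
  have := hsum.comp g hg
  unfold IsGeneric
  convert! this using 1
  funext x
  obtain ⟨w, k⟩ := x
  cases k using Fin.cases <;> simp [g]

end Rig32f
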