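import Mathlib

/-!
# Solvability of a linear system at one generic point transfers to every generic point
-/

open MvPolynomial

noncomputable section

namespace Rig32f

theorem solvable_transport {K L σ E M : Type*} [Field K] [Field L] [Algebra K L] [Fintype E]
    (R : E → M → MvPolynomial σ K) (r : M → MvPolynomial σ K) (x0 x : σ → L)
    (h0 : AlgebraicIndependent K x0) (h : AlgebraicIndependent K x)
    (hc : ∃ c : E → L, ∀ k, ∑ e, c e * aeval x0 (R e k) = aeval x0 (r k)) :
    ∃ c : E → L, ∀ k, ∑ e, c e * aeval x (R e k) = aeval x (r k) := by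
  classical
  obtain ⟨c, hc⟩ := hc
  let A := MvPolynomial σ K
  let F := FractionRing A
  have inj0 : Function.Injective ((aeval x0 : A →ₐ[K] L) : A →+* L) := h0
  have inj : Function.Injective ((aeval x : A →ₐ[K] L) : A →+* L) := h
  let φ0 : F →+* L := IsFractionRing.lift (K := F) inj0
  let φ : F →+* L := IsFractionRing.lift (K := F) inj
  have hφ0 : ∀ a : A, φ0 (algebraMap A F a) = aeval x0 a := fun a =>
    IsFractionRing.lift_algebraMap inj0 a
  have hφ : ∀ a : A, φ (algebraMap A F a) = aeval x a := fun a =>
    IsFractionRing.lift_algebraMap inj a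
  let _ : Algebra F L := φ0.toAlgebra
  have halg : ∀ a : F, algebraMap F L a = φ0 a := fun a => rfl
  obtain ⟨π, hπ⟩ := (Algebra.linearMap F L).exists_leftInverse_of_injective
    (LinearMap.ker_eq_bot.mpr (algebraMap F L).injective)
  have hπ' : ∀ a : F, π (φ0 a) = a := fun a => LinearMap.congr_fun hπ a
  have key : ∀ k, ∑ e, π (c e) * algebraMap A F (R e k) = algebraMap A F (r k) := by
    intro k
    have h1 := congrArg π (hc k)
    rw [map_sum, ← hφ0 (r k), hπ'] at h1
    rw [← h1]
    refine Finset.sum_congr rfl fun e _ => ?_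
    rw [← hφ0 (R e k), mul_comm (c e), ← halg, ← Algebra.smul_def, map_smul, smul_eq_mul, mul_comm]
  refine ⟨fun e => φ (π (c e)), fun k => ?_⟩
  have h2 := congrArg φ (key k)
  rw [map_sum, hφ] at h2
  rw [← h2]
  refine Finset.sum_congr rfl fun e _ => ?_
  rw [map_mul, hφ]

end Rig32f
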