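import Mathlib
import Pool.Agent.Rig32f.Defs
import Pool.Agent.Rig32f.Generic
import Pool.Agent.Rig32f.Transfer
import Pool.Agent.Rig32f.Transport

/-!
# Linked in `ℝ^(d+1)` implies globally linked in `ℝ^d`
-/

open MvPolynomial

noncomputable section

namespace Rig32f

variable {V : Type*} {d : ℕ}

open Classical in
/-- The one-dimensional row. -/
def lap (y : V → ℝ) : Sym2 V → V → ℝ :=
  Sym2.lift ⟨fun a b w =>
    (if w = a then y a - y b else 0) + (if w = b then y b - y a else 0), by
    intro a b
    funext w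
    exact add_comm _ _⟩

/-- The bilinear form of an edge. -/
def bil (y z : V → ℝ) : Sym2 V → ℝ :=
  Sym2.lift ⟨fun a b => (y a - y b) * (z a - z b), by
    intro a b
    ring⟩

@[simp] theorem lap_mk (y : V → ℝ) (a b w : V) [Decidable (w = a)] [Decidable (w = b)] :
    lap y s(a, b) w = (if w = a then y a - y b else 0) + (if w = b then y b - y a else 0) := by
  simp only [lap, Sym2.lift_mk]
  congr

@[simp] theorem bil_mk (y z : V → ℝ) (a b : V) : bil y z s(a, b) = (y a - y b) * (z a - z b) := rfl

theorem rigidityRow_eq (p : V → EuclideanSpace ℝ (Fin d)) (e : Sym2 V) (w : V) (k : Fin d) :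
    rigidityRow p e (w, k) = lap (fun x => p x k) e w := by
  induction e with
  | _ a b => rfl

theorem sum_lap [Fintype V] (y z : V → ℝ) (e : Sym2 V) : ∑ w, z w * lap y e w = bil y z e := by
  classical
  induction e with
  | _ a b =>
    simp only [lap_mk, bil_mk, mul_add, mul_ite, mul_zero, Finset.sum_add_distrib,
      Finset.sum_ite_eq', Finset.mem_univ, if_true]
    ring

theorem bil_comm (y z : V → ℝ) (e : Sym2 V) : bil y z e = bil z y e := by
  induction e with
  | _ a b => simp only [bil_mk]; ring

theorem bil_add_left (y y' z : V → ℝ) (e : Sym2 V) :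
    bil (fun w => y w + y' w) z e = bil y z e + bil y' z e := by
  induction e with
  | _ a b => simp only [bil_mk]; ring

theorem bil_smul_left (t : ℝ) (y z : V → ℝ) (e : Sym2 V) :
    bil (fun w => t * y w) z e = t * bil y z e := by
  induction e with
  | _ a b => simp only [bil_mk]; ring

theorem dist_sq_eq (p : V → EuclideanSpace ℝ (Fin d)) (a b : V) :
    dist (p a) (p b) ^ 2 = ∑ k, bil (fun x => p x k) (fun x => p x k) s(a, b) := by
  rw [EuclideanSpace.dist_eq, Real.sq_sqrt (Finset.sum_nonneg fun _ _ => sq_nonneg _)]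
  refine Finset.sum_congr rfl fun k _ => ?_
  rw [bil_mk, Real.dist_eq, sq_abs, sq]

/-- Squared length polynomial of a pair. -/
def lenPoly (V : Type*) (d : ℕ) : Sym2 V → MvPolynomial (V × Fin d) ℚ :=
  Sym2.lift ⟨fun a b => ∑ k, (X (a, k) - X (b, k)) ^ 2, by
    intro a b
    refine Finset.sum_congr rfl fun k _ => ?_
    ring⟩

/-- The entries of the rigidity row as polynomials. -/
def rowPoly (V : Type*) (d : ℕ) (e : Sym2 V) (wk : V × Fin d) : MvPolynomial (V × Fin d) ℚ :=
  C (1 / 2) * pderiv wk (lenPoly V d e)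

theorem aeval_lenPoly (p : V → EuclideanSpace ℝ (Fin d)) (a b : V) :
    aeval (fun x : V × Fin d => p x.1 x.2) (lenPoly V d s(a, b)) = dist (p a) (p b) ^ 2 := by
  rw [dist_sq_eq]
  simp only [lenPoly, Sym2.lift_mk, map_sum, map_mul, map_sub, aeval_X, bil_mk, sq]

theorem aeval_pderiv_lenPoly (p : V → EuclideanSpace ℝ (Fin d)) (e : Sym2 V) (wk : V × Fin d) :
    aeval (fun x : V × Fin d => p x.1 x.2) (pderiv wk (lenPoly V d e)) =
      2 * rigidityRow p e wk := by
  classical
  obtain ⟨w, k⟩ := wk
  rw [rigidityRow_eq]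
  induction e with
  | _ a b =>
    simp only [lenPoly, Sym2.lift_mk, map_sum, lap_mk]
    rw [Finset.sum_eq_single k]
    · rw [pderiv_pow]
      simp only [map_sub, pderiv_X, map_mul, map_pow, aeval_X, map_natCast]
      have h1 : ∀ c : V, (aeval (fun x : V × Fin d => p x.1 x.2))
          (Pi.single (M := fun _ => MvPolynomial (V × Fin d) ℚ) (w, k) 1 (c, k)) =
          if w = c then (1 : ℝ) else 0 := by
        intro c
        by_cases hc : w = c
        · subst hc; simp
        · rw [Pi.single_eq_of_ne (by simpa [Prod.ext_iff] using Ne.symm hc)]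
          simp [hc]
      simp only [h1]
      norm_num
      split_ifs <;> ring
    · intro j _ hj
      rw [pderiv_pow]
      have h1 : ∀ c : V, pderiv (w, k) (X (c, j) : MvPolynomial (V × Fin d) ℚ) = 0 := by
        intro c
        exact pderiv_X_of_ne (by simpa [Prod.ext_iff] using fun _ => hj)
      simp [h1]
    · simp

theorem aeval_rowPoly (p : V → EuclideanSpace ℝ (Fin d)) (e : Sym2 V) (wk : V × Fin d) :
    aeval (fun x : V × Fin d => p x.1 x.2) (rowPoly V d e wk) = rigidityRow p e wk := by
  rw [rowPoly, map_mul, aeval_pderiv_lenPoly, aeval_C]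
  simp

/-- If `{u, v}` is linked, the row of `uv` is a combination of the rows of the edges of `G` at every
generic realization. -/
theorem IsLinked.exists_coeff [Fintype V] {D : ℕ} {G : SimpleGraph V} {u v : V}
    [Fintype G.edgeSet] (huv : u ≠ v) (h : IsLinked D G u v)
    (P : V → EuclideanSpace ℝ (Fin D)) (hP : IsGeneric P) :
    ∃ c : G.edgeSet → ℝ, ∀ wk, ∑ e, c e * rigidityRow P e.1 wk = rigidityRow P s(u, v) wk := by
  classical
  obtain ⟨P0, hP0, hrank⟩ := h
  have hmem : s(u, v) ∈ (G ⊔ SimpleGraph.edge u v).edgeSet := by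
    rw [SimpleGraph.mem_edgeSet]
    exact Or.inr (by rw [SimpleGraph.adj_edge]; exact ⟨rfl, huv⟩)
  have hle : Submodule.span ℝ (Set.range (rigidityMatrix G P0).row) ≤
      Submodule.span ℝ (Set.range (rigidityMatrix (G ⊔ SimpleGraph.edge u v) P0).row) := by
    apply Submodule.span_mono
    rintro _ ⟨e, rfl⟩
    exact ⟨⟨e.1, SimpleGraph.edgeSet_mono le_sup_left e.2⟩, rfl⟩
  have heq := Submodule.eq_of_le_of_finrank_eq hle (by
    rw [← Matrix.rank_eq_finrank_span_row, ← Matrix.rank_eq_finrank_span_row, hrank])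
  have h1 : rigidityRow P0 s(u, v) ∈ Submodule.span ℝ (Set.range (rigidityMatrix G P0).row) := by
    rw [heq]
    apply Submodule.subset_span
    exact ⟨⟨s(u, v), hmem⟩, rfl⟩
  rw [Submodule.mem_span_range_iff_exists_fun] at h1
  obtain ⟨c0, hc0⟩ := h1
  have h2 : ∃ c : G.edgeSet → ℝ, ∀ wk, ∑ e, c e *
      aeval (fun x : V × Fin D => P0 x.1 x.2) (rowPoly V D e.1 wk) =
      aeval (fun x : V × Fin D => P0 x.1 x.2) (rowPoly V D s(u, v) wk) := by
    refine ⟨c0, fun wk => ?_⟩
    have := congrFun hc0 wk
    rw [Finset.sum_apply] at this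
    simp only [aeval_rowPoly]
    rw [← this]
    rfl
  obtain ⟨c, hc⟩ := solvable_transport (fun (e : G.edgeSet) wk => rowPoly V D e.1 wk)
    (fun wk => rowPoly V D s(u, v) wk) _ _ hP0 hP h2
  refine ⟨c, fun wk => ?_⟩
  have := hc wk
  simpa only [aeval_rowPoly] using this

/-- Sanity check: since the rank of the rigidity matrix is the same at all generic realizations
(and generic realizations exist), linkedness can be tested at any generic realization. -/
theorem isLinked_iff_forall [Fintype V] (D : ℕ) (G : SimpleGraph V) (u v : V) :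
    IsLinked D G u v ↔ ∀ p : V → EuclideanSpace ℝ (Fin D), IsGeneric p →
      (rigidityMatrix (G ⊔ SimpleGraph.edge u v) p).rank = (rigidityMatrix G p).rank := by
  classical
  constructor
  · intro h p hp
    by_cases huv : u = v
    · subst huv
      rw [SimpleGraph.edge_self_eq_bot, sup_bot_eq]
    · obtain ⟨c, hc⟩ := h.exists_coeff huv p hp
      rw [Matrix.rank_eq_finrank_span_row, Matrix.rank_eq_finrank_span_row]
      have hle : Submodule.span ℝ (Set.range (rigidityMatrix (G ⊔ SimpleGraph.edge u v) p).row) ≤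
          Submodule.span ℝ (Set.range (rigidityMatrix G p).row) := by
        rw [Submodule.span_le]
        rintro _ ⟨⟨e, he⟩, rfl⟩
        by_cases heG : e ∈ G.edgeSet
        · exact Submodule.subset_span ⟨⟨e, heG⟩, rfl⟩
        · have he2 : e = s(u, v) := by
            induction e with
            | _ a b =>
              rw [SimpleGraph.mem_edgeSet] at he heG
              rcases he with he | he
              · exact absurd he heG
              · rw [SimpleGraph.adj_edge] at he
                exact he.1.symm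
          subst he2
          change rigidityRow p s(u, v) ∈ Submodule.span ℝ (Set.range (rigidityMatrix G p).row)
          rw [Submodule.mem_span_range_iff_exists_fun]
          refine ⟨c, ?_⟩
          funext wk
          rw [Finset.sum_apply, ← hc wk]
          rfl
      have hge : Submodule.span ℝ (Set.range (rigidityMatrix G p).row) ≤
          Submodule.span ℝ (Set.range (rigidityMatrix (G ⊔ SimpleGraph.edge u v) p).row) := by
        apply Submodule.span_mono
        rintro _ ⟨e, rfl⟩
        exact ⟨⟨e.1, SimpleGraph.edgeSet_mono le_sup_left e.2⟩, rfl⟩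
      rw [le_antisymm hle hge]
  · intro h
    obtain ⟨p, hp⟩ := exists_isGeneric (V := V) D
    exact ⟨p, hp, h p hp⟩

/-- Stresses of a generic realization are stresses of every equivalent realization. -/
theorem stress_of_equivalent [Fintype V] {G : SimpleGraph V} [Fintype G.edgeSet]
    {p q : V → EuclideanSpace ℝ (Fin d)} (hp : IsGeneric p) (hpq : Equivalent G p q)
    (c : G.edgeSet → ℝ) (hc : ∀ wk, ∑ e, c e * rigidityRow p e.1 wk = 0) :
    ∀ wk, ∑ e, c e * rigidityRow q e.1 wk = 0 := by
  have hval : ∀ e : G.edgeSet, aeval (fun x : V × Fin d => p x.1 x.2) (lenPoly V d e.1) =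
      aeval (fun x : V × Fin d => q x.1 x.2) (lenPoly V d e.1) := by
    rintro ⟨e, he⟩
    induction e with
    | _ a b =>
      rw [aeval_lenPoly, aeval_lenPoly, hpq a b he]
  have key := stress_transfer (fun e : G.edgeSet => lenPoly V d e.1)
    (fun x : V × Fin d => p x.1 x.2) (fun x : V × Fin d => q x.1 x.2) hp hval c (by
      intro wk
      have := hc wk
      simp only [aeval_pderiv_lenPoly]
      calc ∑ e, c e * (2 * rigidityRow p e.1 wk) = 2 * ∑ e, c e * rigidityRow p e.1 wk := by
            rw [Finset.mul_sum]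
            exact Finset.sum_congr rfl fun e _ => by ring
        _ = 0 := by rw [this, mul_zero])
  intro wk
  have h1 := key wk
  simp only [aeval_pderiv_lenPoly] at h1
  have h2 : ∑ e, c e * (2 * rigidityRow q e.1 wk) = 2 * ∑ e, c e * rigidityRow q e.1 wk := by
    rw [Finset.mul_sum]
    exact Finset.sum_congr rfl fun e _ => by ring
  rw [h2] at h1
  linarith

/-- The bilinear form of a weight function relative to the pair `e0`. -/
def form {G : SimpleGraph V} [Fintype G.edgeSet] (e0 : Sym2 V) (c : G.edgeSet → ℝ)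
    (y z : V → ℝ) : ℝ := ∑ e, c e * bil y z e.1 - bil y z e0

theorem form_comm {G : SimpleGraph V} [Fintype G.edgeSet] (e0 : Sym2 V) (c : G.edgeSet → ℝ)
    (y z : V → ℝ) : form e0 c y z = form e0 c z y := by
  simp only [form, bil_comm y z]

theorem form_add_smul {G : SimpleGraph V} [Fintype G.edgeSet] (e0 : Sym2 V) (c : G.edgeSet → ℝ)
    (y y' z : V → ℝ) (t : ℝ) :
    form e0 c (fun w => y w + t * y' w) z = form e0 c y z + t * form e0 c y' z := by
  have h1 : ∀ e, bil (fun w => y w + t * y' w) z e = bil y z e + t * bil y' z e := fun e => by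
    rw [bil_add_left y (fun w => t * y' w), bil_smul_left]
  simp only [form, h1, mul_add, Finset.sum_add_distrib]
  have h2 : ∑ e : G.edgeSet, c e * (t * bil y' z e.1) = t * ∑ e : G.edgeSet, c e * bil y' z e.1 := by
    rw [Finset.mul_sum]
    exact Finset.sum_congr rfl fun e _ => by ring
  rw [h2]
  ring

/-- If the row identity holds for `y`, the form vanishes on `y`. -/
theorem form_eq_zero [Fintype V] {G : SimpleGraph V} [Fintype G.edgeSet] (e0 : Sym2 V)
    (c : G.edgeSet → ℝ) (y z : V → ℝ) (h : ∀ w, ∑ e, c e * lap y e.1 w = lap y e0 w) :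
    form e0 c y z = 0 := by
  simp only [form, ← sum_lap]
  rw [sub_eq_zero]
  simp only [Finset.mul_sum]
  rw [Finset.sum_comm]
  refine Finset.sum_congr rfl fun w _ => ?_
  rw [← h w, Finset.mul_sum]
  exact Finset.sum_congr rfl fun e _ => by ring

/-- If the difference of two weight functions is a stress for `y`, the forms agree on `y`. -/
theorem form_congr [Fintype V] {G : SimpleGraph V} [Fintype G.edgeSet] (e0 : Sym2 V)
    (c c' : G.edgeSet → ℝ) (y z : V → ℝ) (h : ∀ w, ∑ e, (c e - c' e) * lap y e.1 w = 0) :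
    form e0 c y z = form e0 c' y z := by
  simp only [form]
  rw [sub_left_inj, ← sub_eq_zero, ← Finset.sum_sub_distrib]
  have h1 : ∀ e : G.edgeSet, c e * bil y z e.1 - c' e * bil y z e.1 =
      ∑ w, z w * ((c e - c' e) * lap y e.1 w) := by
    intro e
    rw [← sum_lap, ← sub_mul, Finset.mul_sum]
    exact Finset.sum_congr rfl fun w _ => by ring
  simp only [h1]
  rw [Finset.sum_comm]
  refine Finset.sum_eq_zero fun w _ => ?_
  rw [← Finset.mul_sum, h w, mul_zero]

/-- **Main theorem.** A pair that is linked in `ℝ^(d+1)` is globally linked in `ℝ^d`. -/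
theorem globallyLinked_of_linked [Fintype V] {G : SimpleGraph V} {u v : V}
    (h : IsLinked (d + 1) G u v) : IsGloballyLinked d G u v := by
  classical
  intro p q hp hpq
  by_cases huv : u = v
  · subst huv; simp
  -- coefficients at generic lifts
  have hlift : ∀ y : V → ℝ, IsGeneric (lift p y) → ∃ c : G.edgeSet → ℝ,
      (∀ w, ∑ e, c e * lap y e.1 w = lap y s(u, v) w) ∧
      (∀ wk, ∑ e, c e * rigidityRow p e.1 wk = rigidityRow p s(u, v) wk) := by
    intro y hy
    obtain ⟨c, hc⟩ := h.exists_coeff huv (lift p y) hy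
    refine ⟨c, fun w => ?_, fun wk => ?_⟩
    · have := hc (w, 0)
      simpa only [rigidityRow_eq, lift_zero] using this
    · obtain ⟨w, k⟩ := wk
      have := hc (w, k.succ)
      simpa only [rigidityRow_eq, lift_succ] using this
  have hdiff : ∀ c c' : G.edgeSet → ℝ,
      (∀ wk, ∑ e, c e * rigidityRow p e.1 wk = rigidityRow p s(u, v) wk) →
      (∀ wk, ∑ e, c' e * rigidityRow p e.1 wk = rigidityRow p s(u, v) wk) →
      ∀ (k : Fin d) (z : V → ℝ), form s(u, v) c (fun x => q x k) z =
        form s(u, v) c' (fun x => q x k) z := by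
    intro c c' hc hc' k z
    apply form_congr
    intro w
    have := stress_of_equivalent hp hpq (fun e => c e - c' e) (by
      intro wk
      simp only [sub_mul, Finset.sum_sub_distrib, hc wk, hc' wk, sub_self]) (w, k)
    simpa only [rigidityRow_eq] using this
  -- the form vanishes on every coordinate of `q`
  have hzero : ∀ c : G.edgeSet → ℝ,
      (∀ wk, ∑ e, c e * rigidityRow p e.1 wk = rigidityRow p s(u, v) wk) →
      ∀ k : Fin d, form s(u, v) c (fun x => q x k) (fun x => q x k) = 0 := by
    intro c hc k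
    obtain ⟨z, hz⟩ := exists_generic_lift p hp (fun x => q x k)
    obtain ⟨c1, h1, h1'⟩ := hlift _ (hz 1 one_ne_zero)
    obtain ⟨c2, h2, h2'⟩ := hlift _ (hz 2 two_ne_zero)
    have e1 := form_eq_zero s(u, v) c1 _ (fun x => q x k) h1
    have e2 := form_eq_zero s(u, v) c2 _ (fun x => q x k) h2
    rw [form_add_smul] at e1 e2
    rw [form_comm _ c1 z, ← hdiff c c1 hc h1' k, ← hdiff c c1 hc h1' k] at e1
    rw [form_comm _ c2 z, ← hdiff c c2 hc h2' k, ← hdiff c c2 hc h2' k] at e2
    push_cast at e1 e2
    linarith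
  obtain ⟨z0, hz0⟩ := exists_generic_lift p hp (fun _ => 0)
  obtain ⟨c, -, hc⟩ := hlift _ (hz0 1 one_ne_zero)
  have hq : ∑ e, c e * ∑ k, bil (fun x => q x k) (fun x => q x k) e.1 =
      ∑ k, bil (fun x => q x k) (fun x => q x k) s(u, v) := by
    have h1 : ∑ k : Fin d, form s(u, v) c (fun x => q x k) (fun x => q x k) = 0 :=
      Finset.sum_eq_zero fun k _ => hzero c hc k
    simp only [form, Finset.sum_sub_distrib] at h1
    rw [Finset.sum_comm] at h1
    simp only [Finset.mul_sum]
    linarith
  have hpz : ∀ k : Fin d, form s(u, v) c (fun x => p x k) (fun x => p x k) = 0 := by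
    intro k
    apply form_eq_zero
    intro w
    have := hc (w, k)
    simpa only [rigidityRow_eq] using this
  have hpp : ∑ e, c e * ∑ k, bil (fun x => p x k) (fun x => p x k) e.1 =
      ∑ k, bil (fun x => p x k) (fun x => p x k) s(u, v) := by
    have h1 : ∑ k : Fin d, form s(u, v) c (fun x => p x k) (fun x => p x k) = 0 :=
      Finset.sum_eq_zero fun k _ => hpz k
    simp only [form, Finset.sum_sub_distrib] at h1
    rw [Finset.sum_comm] at h1
    simp only [Finset.mul_sum]
    linarith
  have hedge : ∀ e : G.edgeSet, ∑ k, bil (fun x => p x k) (fun x => p x k) e.1 =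
      ∑ k, bil (fun x => q x k) (fun x => q x k) e.1 := by
    rintro ⟨e, he⟩
    induction e with
    | _ a b =>
      have := hpq a b he
      change ∑ k, bil (fun x => p x k) (fun x => p x k) s(a, b) =
        ∑ k, bil (fun x => q x k) (fun x => q x k) s(a, b)
      rw [← dist_sq_eq, ← dist_sq_eq, this]
  have hsq : dist (p u) (p v) ^ 2 = dist (q u) (q v) ^ 2 := by
    rw [dist_sq_eq, dist_sq_eq, ← hpp, ← hq]
    refine Finset.sum_congr rfl fun e _ => ?_
    rw [hedge e]
  exact (sq_eq_sq₀ dist_nonneg dist_nonneg).mp hsq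

end Rig32f
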